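import Pool.Agent.TH877.M2.Fin2
import Pool.Agent.TH877.UF.Gen
import Pool.Agent.TH415.AP.Pre

set_option autoImplicit false

/-! # Long intervals of radicands without unique factorisation, inside record prime gaps

For every `0 < θ ≤ 1` there is `c > 0` such that for all large `x` there is `n ∈ (x, x + x^θ]` with
no prime at distance `≤ c log x (log₂ x)² log₄ x / (log₃ x)²` and such that for every squarefree `d`
at distance `≤ c log x log₂ x` from `n` the ring of integers of `ℚ(√d)` has even class number; in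
particular it is not a unique factorisation domain. -/

namespace Pool.Agent.Results.MP_321647_nt.IntervalsWithoutUFD

open Pool.Agent.TH877.M2 NumberField

theorem preStmt : PreStmt := by
  intro ε hε
  exact TH415.AP.presieve ε hε

theorem result (θ : ℝ) (h0 : 0 < θ) (h1 : θ ≤ 1) :
    ∃ c : ℝ, 0 < c ∧ ∃ x₀ : ℝ, ∀ x : ℝ, x₀ ≤ x →
    ∃ n : ℕ, x < n ∧ (n : ℝ) ≤ x + x ^ θ ∧
      (∀ m : ℕ, |(m : ℝ) - n| ≤ c * (Real.log x * (Real.log (Real.log x)) ^ 2 *
        Real.log (Real.log (Real.log (Real.log x))) /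
          (Real.log (Real.log (Real.log x))) ^ 2) → ¬ m.Prime) ∧
      ∀ d : ℕ, |(d : ℝ) - n| ≤ c * (Real.log x * Real.log (Real.log x)) → Squarefree d →
        ∀ (K : Type) [Field K] [NumberField K], Module.finrank ℚ K = 2 →
          ∀ r : K, r ^ 2 = (d : K) →
            Even (classNumber K) ∧ ¬ UniqueFactorizationMonoid (𝓞 K) := by
  obtain ⟨c, hc, x₀, h⟩ := short preStmt θ h0 h1
  refine ⟨c, hc, x₀, fun x hx => ?_⟩
  obtain ⟨n, n1, n2, n3, n4⟩ := h x hx
  refine ⟨n, n1, n2, n3, fun d hd hsq K _ _ hK r hr => ?_⟩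
  exact Pool.Agent.TH877.UF.not_ufd hsq (n4 d hd) hK hr

end Pool.Agent.Results.MP_321647_nt.IntervalsWithoutUFD
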