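import Pool.Agent.TH204.QF.Q6

/-! # Prime ideals of norm about `√d` in the classes of small ideals, for 100% of real quadratic fields

Let `k` be fixed. For all but `X / (log X) ^ U` of the squarefree `d ≤ X` every ideal class (even
every narrow class) of `K = ℚ(√d)` that contains an ideal of odd norm at most `k`, in particular the
principal class, contains at least `Y / (√d (log d)³)` prime ideals of norm at most `Y`, for all `Y`
between `√d (log d) ^ B` and `d / (log d) ^ B`. The size `√d` is that of Minkowski's bound.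

Proof. The ideal `𝔞` of norm `N` has a conjugate `J`, `𝔞 J = (N)`; `J = (v) 𝔟`, where `𝔟` contains
`m₀ + √d` and has norm `n`, and if `q = ±((m₀ + n u)² - d) / n` is a prime then
`(m₀ + n u + √d) = 𝔟 𝔮` with a prime ideal `𝔮` of norm `q` in the class of `𝔞`. That the polynomial
`±((m₀ + n u)² - d) / n` takes the expected number of prime values for the `u` next to its real root,
where its values are of the size `√d (log d) ^ B`, is proved for almost all `d` by a second moment
over `d` (`Pool/Agent/TH204/WR`). -/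

set_option autoImplicit false

namespace Pool.Agent.Results.MP_321647_nt.PrimesInSmallClasses

open NumberField Ideal

/-- `(x) 𝔮 = (y) 𝔞` for some `x`, `y` such that the norm of `x y` has the sign of `s`; for `s = 1` this
means that `𝔮` is in the narrow class of `𝔞`, for `s = -1` that it is in the narrow class of
`(√d) 𝔞` -/
def Cls {K : Type} [Field K] [NumberField K] (s : ℤ) (𝔞 𝔮 : Ideal (𝓞 K)) : Prop :=
  ∃ x y : 𝓞 K, 0 < s * (Algebra.norm ℤ x * Algebra.norm ℤ y) ∧ span {x} * 𝔮 = span {y} * 𝔞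

/-- the prime ideals `𝔮` whose norm is a prime `≤ Y` and which are in the class of `𝔞` -/
def PI {K : Type} [Field K] [NumberField K] (s : ℤ) (𝔞 : Ideal (𝓞 K)) (Y : ℝ) : Set (Ideal (𝓞 K)) :=
  {𝔮 | 𝔮.IsPrime ∧ (absNorm 𝔮).Prime ∧ (absNorm 𝔮 : ℝ) ≤ Y ∧ Cls s 𝔞 𝔮}

/-- in `K = ℚ(√d)`, for every ideal `𝔞` of odd norm at most `k` and both signs, there are at least
`Y / (√d (log d)³)` such prime ideals for all `Y` between `√d (log d) ^ B` and `d / (log d) ^ B` -/
def Good (k B d : ℕ) : Prop :=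
  ∀ (K : Type) [Field K] [NumberField K], Module.finrank ℚ K = 2 → (∃ r : K, r ^ 2 = (d : K)) →
    ∀ 𝔞 : Ideal (𝓞 K), Odd (absNorm 𝔞) → absNorm 𝔞 ≤ k → ∀ s : ℤ, s = 1 ∨ s = -1 →
    ∀ Y : ℝ, √d * Real.log d ^ B ≤ Y → Y ≤ d / Real.log d ^ B →
      Y / (√d * Real.log d ^ 3) ≤ ((PI s 𝔞 Y).ncard : ℝ)

theorem result (k U : ℕ) : ∃ B X₀ : ℕ, ∀ X : ℕ, X₀ ≤ X →
    ({d : ℕ | 2 ≤ d ∧ d ≤ X ∧ Squarefree d ∧ ¬ Good k B d}.ncard : ℝ) ≤ X / Real.log X ^ U :=
  Pool.Agent.TH204.QF.main k U

end Pool.Agent.Results.MP_321647_nt.PrimesInSmallClasses
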