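import Pool.Agent.TH866.SR.Final

/-!
# Class groups of real quadratic fields, uniformly over all sets of sifting primes

For every `a > 2` and every `ε, τ > 0` there is `X₀` such that for all `X ≥ X₀` and EVERY set `Q` of primes
(which may depend on `X`) all but at most `τ X ∏_{q ∈ Q, q ≤ X} (1 - 1/q)` of the squarefree `d ≤ X` without
prime factor in `Q` have the property `GoodE a ε d`: in the class group of `ℚ(√d)` the ideals whose norm is a
product of `k` distinct primes of `(y, 2y]`, for suitable `y` and `k` with `2y ≤ (log d)^a` and
`2k ≤ log d / log log d`, are equidistributed up to `ε` in mean square, and every ideal class is a product of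
at most `log d / log log d` classes of prime ideals of norm at most `(log d)^a`.

`Q = ∅` gives 100% of all squarefree `d`; `Q` = the primes up to `√X` gives 100% of the primes (the theorem
`PrimeRadicands` of the starting files); `Q` = the primes `≡ 3 (mod 4)` gives 100% of the squarefree sums of two
squares, a set of density zero; and so on, with `X₀` independent of `Q`.

The mean value theorem with sieve weights is the work of the starting files (`Pool.Agent.H38R2`); new here are
the sieve weights for an arbitrary set of primes and the uniform deduction.
-/

set_option autoImplicit false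

open Pool.Agent.H38R2.CG3 Filter Finset
open scoped Classical

theorem Pool.Agent.Results.MP_321647_nt.SiftedRadicands.result :
    ∀ a ε τ : ℝ, 2 < a → 0 < ε → 0 < τ → ∃ X₀ : ℕ, ∀ X ≥ X₀, ∀ Q : Set ℕ,
      (((Finset.Icc 2 X).filter (fun d => Squarefree d ∧ (∀ q ∈ Q, q.Prime → ¬ q ∣ d) ∧
        ¬ GoodE a ε d)).card : ℝ) ≤
      τ * X * ∏ q ∈ (Finset.Icc 2 X).filter (fun q => q.Prime ∧ q ∈ Q), (1 - 1 / (q : ℝ)) :=
  Pool.Agent.TH866.SR.final
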