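import Pool.Agent.TH924.SR.AR

/-!
# Unique factorisation and units of almost all real quadratic fields from small relations,
uniformly over all sets of sifting primes

For every `a > 2` and every `τ > 0` there is `X₀` such that for all `X ≥ X₀` and EVERY set `Q` of
primes (which may depend on `X`), all but at most `τ X ∏_{q ∈ Q, q ≤ X} (1 - 1/q)` of the squarefree
`d ≤ X` without prime factor in `Q` have the following property: with `B = (log d) ^ a`, every ideal
of `ℚ(√d)` is covered by products of few primes of norm at most `B` with prescribed archimedean
argument, all `B`-units are generated by small elements, and the ring of integers is a unique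
factorisation domain iff the prime ideals of norm at most `B` are generated by products of powers
of small elements.

`Q = ∅` gives 100% of all squarefree integers, the primes up to `√X` give 100% of the primes
(`MP_d0fd9b_nt.SmallUnits` of the starting files), the primes `≡ 3 (mod 4)` give 100% of the
squarefree sums of two squares.

Sources: the covering property and the generation of units are in the starting library
`Pool.Agent.H951R5.AR` (helper951, helper38); the mean value theorem with weights is in
`Pool.Agent.H38R2`; the sieve weights for an arbitrary set of primes are those of helper866
(`Pool.Agent.TH866.SR`).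
-/

set_option autoImplicit false

open Pool.Agent.H951R5.AR NumberField
open scoped Classical

namespace Pool.Agent.Results.MP_321647_nt.SmallUnits

/-- `GoodAR a d` (defined in `Pool.Agent.H951R5.AR.Defs`) is the property described above: with
`B = (log d) ^ a` and `n = log d / log log d`, in every quadratic number field containing `√d` one has
(i) the covering property `Covers` for `B`, `n`; (ii) the `B`-units are generated by small elements,
and the totally positive ones by totally positive small elements; (iii) the criterion for unique
factorisation. -/
theorem result : ∀ a τ : ℝ, 2 < a → 0 < τ → ∃ X₀ : ℕ, ∀ X ≥ X₀, ∀ Q : Set ℕ,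
    (((Finset.Icc 2 X).filter (fun d => Squarefree d ∧ (∀ q ∈ Q, q.Prime → ¬ q ∣ d) ∧
      ¬ GoodAR a d)).card : ℝ) ≤
    τ * X * ∏ q ∈ (Finset.Icc 2 X).filter (fun q => q.Prime ∧ q ∈ Q), (1 - 1 / (q : ℝ)) :=
  Pool.Agent.TH924.SR.finalAR

end Pool.Agent.Results.MP_321647_nt.SmallUnits
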